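import Pool.Agent.F2.SpecZ

/-!
# Project F2, block Z, row Z2: the final decomposition
-/

set_option autoImplicit false
set_option linter.unusedSectionVars false

namespace F2

open Finset NW F1
open Pool.Agent.F2 (HH GG Spread)

section

variable {V : Type} [Fintype V] [DecidableEq V]

/-- pairwise edge-disjoint -/
def zdPD (P : Finset (Tri V)) : Prop :=
  ∀ T ∈ P, ∀ T' ∈ P, T ≠ T' → Disjoint (NW.edg T.1) (NW.edg T'.1)

/-- the edges -/
def zdE (P : Finset (Tri V)) : Finset (Sym2 V) := P.biUnion (fun T => NW.edg T.1)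

theorem zd_sub {P : Finset (Tri V)} {T : Tri V} (hT : T ∈ P) : NW.edg T.1 ⊆ zdE P :=
  subset_biUnion_of_mem (fun T : Tri V => NW.edg T.1) hT

theorem zd_union {P Q : Finset (Tri V)} (hP : zdPD P) (hQ : zdPD Q)
    (h : Disjoint (zdE P) (zdE Q)) : zdPD (P ∪ Q) := by
  intro T hT T' hT' hne
  rcases mem_union.1 hT with h1 | h1 <;> rcases mem_union.1 hT' with h2 | h2
  · exact hP T h1 T' h2 hne
  · exact disjoint_of_subset_left (zd_sub h1) (disjoint_of_subset_right (zd_sub h2) h)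
  · exact (disjoint_of_subset_left (zd_sub h2) (disjoint_of_subset_right (zd_sub h1) h)).symm
  · exact hQ T h1 T' h2 hne

theorem zdE_union (P Q : Finset (Tri V)) : zdE (P ∪ Q) = zdE P ∪ zdE Q := by
  ext e
  simp only [zdE, mem_biUnion, mem_union]
  constructor
  · rintro ⟨T, hT | hT, he⟩
    · exact Or.inl ⟨T, hT, he⟩
    · exact Or.inr ⟨T, hT, he⟩
  · rintro (⟨T, hT, he⟩ | ⟨T, hT, he⟩)
    · exact ⟨T, Or.inl hT, he⟩
    · exact ⟨T, Or.inr hT, he⟩

theorem zd_biUnion {ι : Type*} [DecidableEq ι] (S : Finset ι) (P : ι → Finset (Tri V))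
    (hP : ∀ i ∈ S, zdPD (P i)) (h : ∀ i ∈ S, ∀ j ∈ S, i ≠ j → Disjoint (zdE (P i)) (zdE (P j))) :
    zdPD (S.biUnion P) := by
  intro T hT T' hT' hne
  obtain ⟨i, hi, hTi⟩ := mem_biUnion.1 hT
  obtain ⟨j, hj, hTj⟩ := mem_biUnion.1 hT'
  by_cases hij : i = j
  · subst hij
    exact hP i hi T hTi T' hTj hne
  · exact disjoint_of_subset_left (zd_sub hTi) (disjoint_of_subset_right (zd_sub hTj)
      (h i hi j hj hij))

theorem zdE_biUnion {ι : Type*} (S : Finset ι) (P : ι → Finset (Tri V)) :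
    zdE (S.biUnion P) = S.biUnion (fun i => zdE (P i)) := by
  ext e
  simp only [zdE, mem_biUnion]
  constructor
  · rintro ⟨T, ⟨i, hi, hT⟩, he⟩
    exact ⟨i, hi, T, hT, he⟩
  · rintro ⟨i, hi, T, hT, he⟩
    exact ⟨T, ⟨i, hi, hT⟩, he⟩

end

theorem dec (ht : TemplateStatement) : DecStatement := by
  intro c J hc hce V _ _ E A X RT hh M 𝒯 ch hE hA hB hC h𝒯 hdis hun
  set E₂ := Er c E A X RT hh with hE₂
  have hpl : ∀ r ∈ RT, Function.Injective (hh r) ∧ rt c (hh r) = r.1 ∧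
      bE c (hh r) ⊆ E \ (X ∪ A) := fun r hr => (mem_filter.1 (hB.mem r hr)).2
  have hbf : ∀ r ∈ RT, BoostFacts c (hh r) := fun r hr => ht c hc hce V (hh r) (hpl r hr).1
  have hbEs : bEs c RT hh ⊆ E \ (X ∪ A) := biUnion_subset.2 fun r hr => (hpl r hr).2.2
  have hbE : ∀ r ∈ RT, bE c (hh r) ⊆ bEs c RT hh := fun r hr =>
    subset_biUnion_of_mem (fun r => bE c (hh r)) hr
  have hON : ∀ r ∈ RT, zdE (ON c (hh r)) = NW.edg r.1 ∪ bE c (hh r) := by
    intro r hr
    have h1 := (hbf r hr).edgON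
    rw [(hpl r hr).2.1] at h1
    exact h1
  have hOFF : ∀ r, zdE (OFF c (hh r)) = bE c (hh r) := fun r => rfl
  -- the zones
  set Cv : Finset (Sym2 V) := M.biUnion (fun T => NW.edg T.1) with hCv
  set Us : Finset (Sym2 V) := (Lo E₂ M).biUnion (fun e => NW.edg (ch e).1 \ E₂) with hUs
  have hCvE : Cv ⊆ E₂ := biUnion_subset.2 fun T hT => (mem_filter.1 (hC.M_sub hT)).2
  have hLoE : Lo E₂ M ⊆ E₂ := sdiff_subset
  have hUsX : Us ⊆ X := biUnion_subset.2 fun e he =>
    (mem_filter.1 (hC.ch_mem e he).1).2.2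
  have hLrX : Lr E₂ X M ch ⊆ X := sdiff_subset
  have hAX : Disjoint A X := by
    rw [disjoint_left]
    intro e he hx
    exact (mem_sdiff.1 (hA.A_sub he)).2 hx
  have hXA : ∀ e, e ∈ E₂ → e ∉ X ∪ A := fun e he =>
    (mem_sdiff.1 (mem_sdiff.1 he).1).2
  have hE2b : Disjoint E₂ (bEs c RT hh) := sdiff_disjoint
  -- first family
  have p1 : zdPD M := hC.M_disj
  have e1 : zdE M = Cv := rfl
  -- second family
  have hch : ∀ e ∈ Lo E₂ M, NW.edg (ch e).1 = {e} ∪ (NW.edg (ch e).1 \ E₂) := by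
    intro e he
    rw [← (hC.ch_mem e he).2]
    ext x
    simp only [mem_union, mem_inter, mem_sdiff]
    tauto
  have p2 : zdPD ((Lo E₂ M).image ch) := by
    intro T hT T' hT' hne
    obtain ⟨e, he, rfl⟩ := mem_image.1 hT
    obtain ⟨e', he', rfl⟩ := mem_image.1 hT'
    have hee : e ≠ e' := fun h => hne (by rw [h])
    rw [hch e he, hch e' he']
    refine disjoint_union_left.2 ⟨disjoint_union_right.2 ⟨?_, ?_⟩,
      disjoint_union_right.2 ⟨?_, hC.ch_disj e he e' he' hee⟩⟩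
    · exact disjoint_singleton.2 hee
    · rw [disjoint_singleton_left]
      exact fun h => (mem_sdiff.1 h).2 (hLoE he)
    · rw [disjoint_singleton_right]
      exact fun h => (mem_sdiff.1 h).2 (hLoE he')
  have e2 : zdE ((Lo E₂ M).image ch) = Lo E₂ M ∪ Us := by
    ext x
    simp only [zdE, mem_biUnion, mem_image, mem_union, hUs]
    constructor
    · rintro ⟨T, ⟨e, he, rfl⟩, hx⟩
      rw [hch e he] at hx
      rcases mem_union.1 hx with h | h
      · rw [mem_singleton] at h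
        exact Or.inl (h ▸ he)
      · exact Or.inr ⟨e, he, h⟩
    · rintro (h | ⟨e, he, h⟩)
      · refine ⟨ch x, ⟨x, h, rfl⟩, ?_⟩
        rw [hch x h]
        exact mem_union_left _ (mem_singleton_self x)
      · exact ⟨ch e, ⟨e, he, rfl⟩, (mem_sdiff.1 h).1⟩
  -- third family
  have hr𝒯 : ∀ r ∈ 𝒯, NW.edg r.1 ⊆ A ∪ X := fun r hr => hA.root r (h𝒯 hr)
  have hdAXb : ∀ r ∈ RT, Disjoint (A ∪ X) (bE c (hh r)) := by
    intro r hr
    rw [disjoint_right]
    intro e he h
    exact (mem_sdiff.1 ((hpl r hr).2.2 he)).2 (by rwa [union_comm])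
  have p3 : zdPD (𝒯.biUnion (fun r => ON c (hh r))) := by
    refine zd_biUnion _ _ (fun r hr => (hbf r (h𝒯 hr)).packON) fun r hr r' hr' hne => ?_
    rw [hON r (h𝒯 hr), hON r' (h𝒯 hr')]
    refine disjoint_union_left.2 ⟨disjoint_union_right.2 ⟨hdis r hr r' hr' hne, ?_⟩,
      disjoint_union_right.2 ⟨?_, hB.disj r (h𝒯 hr) r' (h𝒯 hr') hne⟩⟩
    · exact disjoint_of_subset_left (hr𝒯 r hr) (hdAXb r' (h𝒯 hr'))
    · exact (disjoint_of_subset_left (hr𝒯 r' hr') (hdAXb r (h𝒯 hr))).symm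
  have e3 : zdE (𝒯.biUnion (fun r => ON c (hh r))) =
      (A ∪ Lr E₂ X M ch) ∪ 𝒯.biUnion (fun r => bE c (hh r)) := by
    rw [zdE_biUnion, ← hun]
    ext x
    simp only [mem_biUnion, mem_union]
    constructor
    · rintro ⟨r, hr, hx⟩
      rw [hON r (h𝒯 hr)] at hx
      rcases mem_union.1 hx with h | h
      · exact Or.inl ⟨r, hr, h⟩
      · exact Or.inr ⟨r, hr, h⟩
    · rintro (⟨r, hr, h⟩ | ⟨r, hr, h⟩)
      · exact ⟨r, hr, by rw [hON r (h𝒯 hr)]; exact mem_union_left _ h⟩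
      · exact ⟨r, hr, by rw [hON r (h𝒯 hr)]; exact mem_union_right _ h⟩
  -- fourth family
  have p4 : zdPD ((RT \ 𝒯).biUnion (fun r => OFF c (hh r))) := by
    refine zd_biUnion _ _ (fun r hr => (hbf r (mem_sdiff.1 hr).1).packOFF)
      fun r hr r' hr' hne => ?_
    exact hB.disj r (mem_sdiff.1 hr).1 r' (mem_sdiff.1 hr').1 hne
  have e4 : zdE ((RT \ 𝒯).biUnion (fun r => OFF c (hh r))) =
      (RT \ 𝒯).biUnion (fun r => bE c (hh r)) := by
    rw [zdE_biUnion]
    rfl
  have hb3 : 𝒯.biUnion (fun r => bE c (hh r)) ⊆ bEs c RT hh :=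
    biUnion_subset.2 fun r hr => hbE r (h𝒯 hr)
  have hb4 : (RT \ 𝒯).biUnion (fun r => bE c (hh r)) ⊆ bEs c RT hh :=
    biUnion_subset.2 fun r hr => hbE r (mem_sdiff.1 hr).1
  have hbAX : ∀ e ∈ bEs c RT hh, e ∉ X ∪ A := fun e he => (mem_sdiff.1 (hbEs he)).2
  have hb34 : Disjoint (𝒯.biUnion (fun r => bE c (hh r)))
      ((RT \ 𝒯).biUnion (fun r => bE c (hh r))) := by
    rw [disjoint_left]
    intro e he he'
    obtain ⟨r, hr, h⟩ := mem_biUnion.1 he
    obtain ⟨r', hr', h'⟩ := mem_biUnion.1 he'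
    have hne : r ≠ r' := fun h => (mem_sdiff.1 hr').2 (h ▸ hr)
    exact disjoint_left.1 (hB.disj r (h𝒯 hr) r' (mem_sdiff.1 hr').1 hne) h h'
  have hfin : finT c E₂ RT hh 𝒯 M ch = (M ∪ (Lo E₂ M).image ch) ∪
      (𝒯.biUnion (fun r => ON c (hh r)) ∪ (RT \ 𝒯).biUnion (fun r => OFF c (hh r))) := rfl
  have hUL : Disjoint Us (Lr E₂ X M ch) := disjoint_sdiff
  refine ⟨?_, ?_⟩
  · rw [hfin]
    refine zd_union (zd_union p1 p2 ?_) (zd_union p3 p4 ?_) ?_
    · rw [e1, e2]
      refine disjoint_union_right.2 ⟨disjoint_sdiff, ?_⟩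
      rw [disjoint_left]
      intro e he he'
      exact hXA e (hCvE he) (mem_union_left _ (hUsX he'))
    · rw [e3, e4]
      refine disjoint_union_left.2 ⟨?_, hb34⟩
      rw [disjoint_left]
      intro e he he'
      refine hbAX e (hb4 he') ?_
      rcases mem_union.1 he with h | h
      · exact mem_union_right _ h
      · exact mem_union_left _ (hLrX h)
    · rw [zdE_union, zdE_union, e1, e2, e3, e4, disjoint_left]
      intro e he he'
      have k1 : e ∈ E₂ ∨ e ∈ Us := by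
        rcases mem_union.1 he with h | h
        · exact Or.inl (hCvE h)
        · rcases mem_union.1 h with h | h
          · exact Or.inl (hLoE h)
          · exact Or.inr h
      have k2 : e ∈ A ∨ e ∈ Lr E₂ X M ch ∨ e ∈ bEs c RT hh := by
        rcases mem_union.1 he' with h | h
        · rcases mem_union.1 h with h | h
          · rcases mem_union.1 h with h | h
            · exact Or.inl h
            · exact Or.inr (Or.inl h)
          · exact Or.inr (Or.inr (hb3 h))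
        · exact Or.inr (Or.inr (hb4 h))
      rcases k1 with k1 | k1
      · rcases k2 with k2 | k2 | k2
        · exact hXA e k1 (mem_union_right _ k2)
        · exact hXA e k1 (mem_union_left _ (hLrX k2))
        · exact disjoint_left.1 hE2b k1 k2
      · rcases k2 with k2 | k2 | k2
        · exact disjoint_left.1 hAX k2 (hUsX k1)
        · exact disjoint_left.1 hUL k1 k2
        · exact hbAX e k2 (mem_union_left _ (hUsX k1))
  · change zdE (finT c E₂ RT hh 𝒯 M ch) = E
    rw [hfin, zdE_union, zdE_union, zdE_union, e1, e2, e3, e4]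
    have hAE : A ⊆ E := hA.A_sub.trans sdiff_subset
    ext e
    simp only [mem_union]
    constructor
    · rintro ((h | h | h) | (((h | h) | h) | h))
      · exact (mem_sdiff.1 (mem_sdiff.1 (hCvE h)).1).1
      · exact (mem_sdiff.1 (mem_sdiff.1 (hLoE h)).1).1
      · exact hA.X_sub (hUsX h)
      · exact hAE h
      · exact hA.X_sub (hLrX h)
      · exact (mem_sdiff.1 (hbEs (hb3 h))).1
      · exact (mem_sdiff.1 (hbEs (hb4 h))).1
    · intro he
      by_cases hx : e ∈ X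
      · by_cases hu : e ∈ Us
        · exact Or.inl (Or.inr (Or.inr hu))
        · exact Or.inr (Or.inl (Or.inl (Or.inr (mem_sdiff.2 ⟨hx, hu⟩))))
      · by_cases ha : e ∈ A
        · exact Or.inr (Or.inl (Or.inl (Or.inl ha)))
        · by_cases hb : e ∈ bEs c RT hh
          · obtain ⟨r, hr, hre⟩ := mem_biUnion.1 hb
            by_cases hr' : r ∈ 𝒯
            · exact Or.inr (Or.inl (Or.inr (mem_biUnion.2 ⟨r, hr', hre⟩)))
            · exact Or.inr (Or.inr (mem_biUnion.2 ⟨r, mem_sdiff.2 ⟨hr, hr'⟩, hre⟩))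
          · have h2 : e ∈ E₂ := mem_sdiff.2 ⟨mem_sdiff.2 ⟨he, fun h => by
              rcases mem_union.1 h with h | h
              · exact hx h
              · exact ha h⟩, hb⟩
            by_cases hcv : e ∈ Cv
            · exact Or.inl (Or.inl hcv)
            · exact Or.inl (Or.inr (Or.inl (mem_sdiff.2 ⟨h2, hcv⟩)))

end F2
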