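import Pool.Agent.F2.SpecZ

/-!
# Project F2, row Z10: degrees
-/

set_option autoImplicit false
set_option linter.unusedSectionVars false

namespace F2

open Finset NW F1

theorem deg_le_sdiff_add_any {V : Type} [Fintype V] [DecidableEq V] (E F : Finset (Sym2 V))
    (v : V) : NW.deg E v ≤ NW.deg (E \ F) v + NW.deg F v := by
  refine (NW.deg_mono (F := (E \ F) ∪ F) ?_ v).trans (NW.deg_union_le _ _ v)
  intro e he
  by_cases h : e ∈ F
  · exact mem_union_right _ h
  · exact mem_union_left _ (mem_sdiff.2 ⟨he, h⟩)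

theorem degs : DegStatement := by
  intro C s a ε V _ _ E F A X _ hE
  have key : ∀ (F : Finset (Sym2 V)), (∀ v, (NW.deg F v : ℝ) ≤ ε * (Fintype.card V : ℝ)) →
      ∀ v, (a - ε) * (Fintype.card V : ℝ) ≤ (NW.deg (E \ F) v : ℝ) := by
    intro F hF v
    have h1 : (NW.deg E v : ℝ) ≤ (NW.deg (E \ F) v : ℝ) + (NW.deg F v : ℝ) := by
      exact_mod_cast deg_le_sdiff_add_any E F v
    have h2 := hE v
    have h3 := hF v
    linarith
  refine ⟨fun hX hA hs hC => key _ (fun v => ?_), key F⟩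
  have h1 : NW.deg (X ∪ A) v * s ≤ (C + 4) * Fintype.card V := by
    have h2 : NW.deg (X ∪ A) v ≤ NW.deg X v + NW.deg A v := NW.deg_union_le X A v
    calc NW.deg (X ∪ A) v * s ≤ (NW.deg X v + NW.deg A v) * s := Nat.mul_le_mul_right s h2
      _ = NW.deg X v * s + NW.deg A v * s := add_mul _ _ _
      _ ≤ 4 * Fintype.card V + C * Fintype.card V := Nat.add_le_add (hX v) (hA v)
      _ = (C + 4) * Fintype.card V := by ring
  have h3 : (NW.deg (X ∪ A) v : ℝ) * s ≤ ((C + 4 : ℕ) : ℝ) * (Fintype.card V : ℝ) := by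
    exact_mod_cast h1
  have hs0 : (0 : ℝ) < s := by exact_mod_cast hs
  have hn : (0 : ℝ) ≤ (Fintype.card V : ℝ) := Nat.cast_nonneg _
  have h4 : ((C + 4 : ℕ) : ℝ) * (Fintype.card V : ℝ) ≤ ε * s * (Fintype.card V : ℝ) :=
    mul_le_mul_of_nonneg_right hC hn
  have h5 : (NW.deg (X ∪ A) v : ℝ) * s ≤ ε * (Fintype.card V : ℝ) * s := by
    calc (NW.deg (X ∪ A) v : ℝ) * s ≤ ε * s * (Fintype.card V : ℝ) := h3.trans h4
      _ = ε * (Fintype.card V : ℝ) * s := by ring
  exact le_of_mul_le_mul_right h5 hs0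

end F2
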