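import Pool.Agent.F2.SpecZ

/-!
# Project F2, block Z: divisibility of the rest (row Z1)
-/

set_option autoImplicit false
set_option linter.unusedSectionVars false

namespace F2

open Finset NW F1

section ZDiv

variable {V : Type} [Fintype V] [DecidableEq V]

private theorem zd_tri (T : Tri V) : NW.Dec (NW.edg T.1) := NW.dec_edg T.2

/-- row Z1 -/
theorem divis (ht : TemplateStatement) : DivStatement := by
  intro c J hc hev V _ _ E A X RT hh M ch hE hA hB hC
  set E₂ := Er c E A X RT hh with hE₂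
  -- the placements
  have hpl : ∀ r ∈ RT, Function.Injective (hh r) ∧ bE c (hh r) ⊆ E \ (X ∪ A) := by
    intro r hr
    have h := (mem_filter.1 (hB.mem r hr)).2
    exact ⟨h.1, h.2.2⟩
  have hbE : bEs c RT hh ⊆ E \ (X ∪ A) := by
    unfold bEs
    exact biUnion_subset.2 fun r hr => (hpl r hr).2
  have hE₂sub : E₂ ⊆ E \ (X ∪ A) := sdiff_subset
  have hbE2 : ∀ x ∈ bEs c RT hh, x ∉ E₂ := fun x hx hx2 => (mem_sdiff.1 hx2).2 hx
  have hXE2 : ∀ x ∈ X, x ∉ E₂ := fun x hx hx2 =>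
    (mem_sdiff.1 (hE₂sub hx2)).2 (mem_union_left _ hx)
  have hAE2 : ∀ x ∈ A, x ∉ E₂ := fun x hx hx2 =>
    (mem_sdiff.1 (hE₂sub hx2)).2 (mem_union_right _ hx)
  have hXb : ∀ x ∈ X, x ∉ bEs c RT hh := fun x hx hx2 =>
    (mem_sdiff.1 (hbE hx2)).2 (mem_union_left _ hx)
  have hAb : ∀ x ∈ A, x ∉ bEs c RT hh := fun x hx hx2 =>
    (mem_sdiff.1 (hbE hx2)).2 (mem_union_right _ hx)
  have hAX : ∀ x ∈ A, x ∉ X := fun x hx => (mem_sdiff.1 (hA.A_sub hx)).2
  -- the edges of the triangles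
  have hM2 : ∀ T ∈ M, NW.edg T.1 ⊆ E₂ := fun T hT => (mem_filter.1 (hC.M_sub hT)).2
  have hch : ∀ e ∈ Lo E₂ M, NW.edg (ch e).1 \ E₂ ⊆ X ∧ NW.edg (ch e).1 ∩ E₂ = {e} := by
    intro e he
    obtain ⟨h1, h2⟩ := hC.ch_mem e he
    exact ⟨(mem_filter.1 h1).2.2, h2⟩
  have hch2 : ∀ e ∈ Lo E₂ M, ∀ x ∈ NW.edg (ch e).1, x = e ∨ (x ∈ X ∧ x ∉ E₂) := by
    intro e he x hx
    obtain ⟨h1, h2⟩ := hch e he
    by_cases hx2 : x ∈ E₂
    · left
      have : x ∈ NW.edg (ch e).1 ∩ E₂ := mem_inter.2 ⟨hx, hx2⟩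
      rw [h2] at this
      exact mem_singleton.1 this
    · right
      exact ⟨h1 (mem_sdiff.2 ⟨hx, hx2⟩), hx2⟩
  have hself : ∀ e ∈ Lo E₂ M, e ∈ NW.edg (ch e).1 := by
    intro e he
    have h2 := (hch e he).2
    have : e ∈ NW.edg (ch e).1 ∩ E₂ := by
      rw [h2]
      exact mem_singleton_self e
    exact (mem_inter.1 this).1
  have hLo : ∀ e ∈ Lo E₂ M, e ∈ E₂ ∧ e ∉ M.biUnion (fun T => NW.edg T.1) := fun e he =>
    mem_sdiff.1 he
  -- the three parts are decomposable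
  have d1 : NW.Dec (M.biUnion (fun T => NW.edg T.1)) :=
    NW.Dec.biUnion M (fun T : Tri V => NW.edg T.1) (fun T _ => zd_tri T) hC.M_disj
  have d2 : NW.Dec ((Lo E₂ M).biUnion (fun e => NW.edg (ch e).1)) := by
    refine NW.Dec.biUnion (Lo E₂ M) (fun e => NW.edg (ch e).1) (fun e _ => zd_tri (ch e)) ?_
    intro e he e' he' hne
    rw [Finset.disjoint_left]
    intro x hx hx'
    rcases hch2 e he x hx with rfl | ⟨h1, h2⟩
    · rcases hch2 e' he' x hx' with h3 | ⟨h3, h4⟩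
      · exact hne h3
      · exact h4 (hLo x he).1
    · rcases hch2 e' he' x hx' with rfl | ⟨h3, h4⟩
      · exact h2 (hLo x he').1
      · exact Finset.disjoint_left.1 (hC.ch_disj e he e' he' hne) (mem_sdiff.2 ⟨hx, h2⟩)
          (mem_sdiff.2 ⟨hx', h2⟩)
  have d3 : NW.Dec (bEs c RT hh) := by
    unfold bEs
    refine NW.Dec.biUnion RT (fun r => bE c (hh r)) (fun r hr => ?_) hB.disj
    have hf := ht c hc hev V (hh r) (hpl r hr).1
    unfold bE
    exact NW.Dec.biUnion (OFF c (hh r)) (fun T : Tri V => NW.edg T.1) (fun T _ => zd_tri T)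
      hf.packOFF
  have h12 : Disjoint (M.biUnion (fun T => NW.edg T.1))
      ((Lo E₂ M).biUnion (fun e => NW.edg (ch e).1)) := by
    rw [Finset.disjoint_left]
    intro x hx hx'
    obtain ⟨T, hT, hxT⟩ := mem_biUnion.1 hx
    obtain ⟨e, he, hxe⟩ := mem_biUnion.1 hx'
    rcases hch2 e he x hxe with rfl | ⟨-, h4⟩
    · exact (hLo x he).2 hx
    · exact h4 (hM2 T hT hxT)
  have d12 := d1.union d2 h12
  have h123 : Disjoint (M.biUnion (fun T => NW.edg T.1) ∪
      (Lo E₂ M).biUnion (fun e => NW.edg (ch e).1)) (bEs c RT hh) := by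
    rw [Finset.disjoint_left]
    intro x hx hb
    rcases mem_union.1 hx with hx | hx
    · obtain ⟨T, hT, hxT⟩ := mem_biUnion.1 hx
      exact hbE2 x hb (hM2 T hT hxT)
    · obtain ⟨e, he, hxe⟩ := mem_biUnion.1 hx
      rcases hch2 e he x hxe with rfl | ⟨h3, -⟩
      · exact hbE2 x hb (hLo x he).1
      · exact hXb x h3 hb
  have d := d12.union d3 h123
  set F := (M.biUnion (fun T => NW.edg T.1) ∪
      (Lo E₂ M).biUnion (fun e => NW.edg (ch e).1)) ∪ bEs c RT hh with hF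
  have hFE : F ⊆ E := by
    intro x hx
    rcases mem_union.1 hx with hx | hx
    · rcases mem_union.1 hx with hx | hx
      · obtain ⟨T, hT, hxT⟩ := mem_biUnion.1 hx
        exact (mem_sdiff.1 (hE₂sub (hM2 T hT hxT))).1
      · obtain ⟨e, he, hxe⟩ := mem_biUnion.1 hx
        rcases hch2 e he x hxe with rfl | ⟨h3, -⟩
        · exact (mem_sdiff.1 (hE₂sub (hLo x he).1)).1
        · exact hA.X_sub h3
    · exact (mem_sdiff.1 (hbE hx)).1
  have key : A ∪ Lr E₂ X M ch = E \ F := by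
    ext x
    constructor
    · intro hx
      rcases mem_union.1 hx with hx | hx
      · refine mem_sdiff.2 ⟨(mem_sdiff.1 (hA.A_sub hx)).1, fun hxF => ?_⟩
        rcases mem_union.1 hxF with hxF | hxF
        · rcases mem_union.1 hxF with hxF | hxF
          · obtain ⟨T, hT, hxT⟩ := mem_biUnion.1 hxF
            exact hAE2 x hx (hM2 T hT hxT)
          · obtain ⟨e, he, hxe⟩ := mem_biUnion.1 hxF
            rcases hch2 e he x hxe with rfl | ⟨h3, -⟩
            · exact hAE2 x hx (hLo x he).1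
            · exact hAX x hx h3
        · exact hAb x hx hxF
      · obtain ⟨hxX, hxn⟩ := mem_sdiff.1 hx
        refine mem_sdiff.2 ⟨hA.X_sub hxX, fun hxF => ?_⟩
        rcases mem_union.1 hxF with hxF | hxF
        · rcases mem_union.1 hxF with hxF | hxF
          · obtain ⟨T, hT, hxT⟩ := mem_biUnion.1 hxF
            exact hXE2 x hxX (hM2 T hT hxT)
          · obtain ⟨e, he, hxe⟩ := mem_biUnion.1 hxF
            exact hxn (mem_biUnion.2 ⟨e, he, mem_sdiff.2 ⟨hxe, hXE2 x hxX⟩⟩)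
        · exact hXb x hxX hxF
    · intro hx
      obtain ⟨hxE, hxF⟩ := mem_sdiff.1 hx
      by_cases hxA : x ∈ A
      · exact mem_union_left _ hxA
      by_cases hxX : x ∈ X
      · refine mem_union_right _ (mem_sdiff.2 ⟨hxX, fun h => ?_⟩)
        obtain ⟨e, he, hxe⟩ := mem_biUnion.1 h
        exact hxF (mem_union_left _ (mem_union_right _
          (mem_biUnion.2 ⟨e, he, (mem_sdiff.1 hxe).1⟩)))
      exfalso
      have hx1 : x ∉ bEs c RT hh := fun h => hxF (mem_union_right _ h)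
      have hx2 : x ∈ E₂ := mem_sdiff.2 ⟨mem_sdiff.2 ⟨hxE, fun h => by
        rcases mem_union.1 h with h | h
        · exact hxX h
        · exact hxA h⟩, hx1⟩
      have hx3 : x ∉ M.biUnion (fun T => NW.edg T.1) := fun h =>
        hxF (mem_union_left _ (mem_union_left _ h))
      have hx4 : x ∈ Lo E₂ M := mem_sdiff.2 ⟨hx2, hx3⟩
      exact hxF (mem_union_left _ (mem_union_right _ (mem_biUnion.2 ⟨x, hx4, hself x hx4⟩)))
  rw [key]
  exact hE.sdiff d.divis hFE

end ZDiv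

end F2
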