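import Pool.Agent.F2.SpecZ

/-!
# Project F2, block Z, row Z4 (helper89): the final statement
-/

set_option autoImplicit false
set_option linter.unusedSectionVars false

namespace F2

open Finset NW F1
open Pool.Agent.F2 (HH GG Spread)

theorem fin_of (h1 : DivStatement) (h2 : DecStatement) (h3 : FreeStatement)
    (hg : F1.GirthStatement) : FinStatement := by
  intro c J hc6 hce V _ _ E A X RT hh M ch hE hA hB hC
  have hdiv := h1 c J hc6 hce V E A X RT hh M ch hE hA hB hC
  obtain ⟨𝒯, hsub, hdis, huni⟩ := hA.abs _ sdiff_subset hdiv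
  obtain ⟨hd1, hd2⟩ := h2 c J hc6 hce V E A X RT hh M 𝒯 ch hE.1 hA hB hC hsub hdis huni
  have hfree := h3 c J hc6 hce V E A X RT hh M 𝒯 ch hE.1 hA hB hC hsub hd1
  have hgir := hg V J (finT c (Er c E A X RT hh) RT hh 𝒯 M ch) hd1 hfree
  generalize finT c (Er c E A X RT hh) RT hh 𝒯 M ch = F at hd1 hd2 hgir
  refine ⟨F.image (fun T => T.1), ⟨?_, ?_⟩, ?_, ?_⟩
  · intro t ht
    obtain ⟨T, hT, rfl⟩ := mem_image.1 ht
    refine ⟨T.2, ?_⟩
    rw [← hd2]
    exact subset_biUnion_of_mem (fun T : Tri V => NW.edg T.1) hT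
  · intro t ht t' ht' hne
    obtain ⟨T, hT, rfl⟩ := mem_image.1 ht
    obtain ⟨T', hT', rfl⟩ := mem_image.1 ht'
    exact hd1 T hT T' hT' (fun h => hne (by rw [h]))
  · rw [image_biUnion]
    exact hd2
  · intro U hU1 hU2
    have h4 := hgir U hU1 hU2
    have h5 : ((F.image (fun T => T.1)).filter (fun t => t ⊆ U)).card =
        (F.filter (fun T => T.1 ⊆ U)).card := by
      rw [filter_image, card_image_of_injective _ (fun T T' h => Subtype.ext h)]
    rw [h5]
    exact h4

end F2
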