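import Pool.Agent.F2.SpecZ

/-!
# Project F2, block Z, row Z3 (helper64): no configuration in the final set
-/

set_option autoImplicit false
set_option linter.unusedSectionVars false

namespace F2

open Finset NW F1
open Pool.Agent.F2 (HH GG Spread)

theorem free (ht : TemplateStatement) : FreeStatement := by
  classical
  intro c J hc6 hce V _ _ E A X RT hh M 𝒯 ch hE hA hB hC hsub hdis D hD hDF
  have hfacts : ∀ r ∈ RT, BoostFacts c (hh r) := fun r hr => by
    have h1 := hB.mem r hr
    unfold Pl at h1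
    exact ht c hc6 hce V (hh r) (mem_filter.mp h1).2.1
  have hON : ∀ r ∈ 𝒯, ∀ T ∈ ON c (hh r), T ∈ finT c (Er c E A X RT hh) RT hh 𝒯 M ch := by
    intro r hr T hT
    unfold finT
    exact mem_union_right _ (mem_union_left _ (mem_biUnion.mpr ⟨r, hr, hT⟩))
  have hOFF : ∀ r ∈ RT, r ∉ 𝒯 → ∀ T ∈ OFF c (hh r),
      T ∈ finT c (Er c E A X RT hh) RT hh 𝒯 M ch := by
    intro r hr hr' T hT
    unfold finT
    exact mem_union_right _ (mem_union_right _
      (mem_biUnion.mpr ⟨r, mem_sdiff.mpr ⟨hr, hr'⟩, hT⟩))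
  have hsame : ∀ T ∈ finT c (Er c E A X RT hh) RT hh 𝒯 M ch,
      ∀ T' ∈ finT c (Er c E A X RT hh) RT hh 𝒯 M ch, ∀ e, e ∈ NW.edg T.1 → e ∈ NW.edg T'.1 →
        T = T' := by
    intro T hT T' hT' e he he'
    by_contra hne
    exact disjoint_left.mp (hdis T hT T' hT' hne) he he'
  -- the configuration is consistent
  have hcons : Cons c RT hh D := by
    intro r hr
    have hf := hfacts r hr
    by_cases hr' : r ∈ 𝒯
    · left
      intro T hT
      rw [mem_inter] at hT
      obtain ⟨e, he, heb⟩ := hf.face_bE T hT.2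
      have h1 : e ∈ (ON c (hh r)).biUnion (fun T => NW.edg T.1) := by
        rw [hf.edgON]
        exact mem_union_right _ heb
      obtain ⟨T', hT', he'⟩ := mem_biUnion.mp h1
      have h2 := hsame T (hDF hT.1) T' (hON r hr' T' hT') e he he'
      rw [h2]
      exact hT'
    · right
      intro T hT
      rw [mem_inter] at hT
      obtain ⟨e, he, heb⟩ := hf.face_bE T hT.2
      unfold bE at heb
      obtain ⟨T', hT', he'⟩ := mem_biUnion.mp heb
      have h2 := hsame T (hDF hT.1) T' (hOFF r hr hr' T' hT') e he he'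
      rw [h2]
      exact hT'
  have hclean := hB.clean D hD hcons
  -- the residual configuration
  have hU : D \ allB c RT hh ⊆ M ∪ (Lo (Er c E A X RT hh) M).image ch := by
    intro T hT
    rw [mem_sdiff] at hT
    have h1 := hDF hT.1
    unfold finT at h1
    rcases mem_union.mp h1 with h1 | h1
    · exact h1
    rcases mem_union.mp h1 with h1 | h1
    · exfalso
      obtain ⟨r, hr, hr'⟩ := mem_biUnion.mp h1
      apply hT.2
      unfold allB
      exact mem_biUnion.mpr ⟨r, hsub hr, mem_union_left _ hr'⟩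
    · exfalso
      obtain ⟨r, hr, hr'⟩ := mem_biUnion.mp h1
      apply hT.2
      unfold allB
      exact mem_biUnion.mpr ⟨r, (mem_sdiff.mp hr).1, mem_union_right _ hr'⟩
  have hUR : D \ allB c RT hh ⊆
      triR (Er c E A X RT hh) ∪ triV (Er c E A X RT hh) X := by
    intro T hT
    rcases mem_union.mp (hU hT) with h1 | h1
    · exact mem_union_left _ (hC.M_sub h1)
    · obtain ⟨e, he, rfl⟩ := mem_image.mp h1
      exact mem_union_right _ (hC.ch_mem e he).1
  refine hC.free (D \ allB c RT hh) ?_ hU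
  unfold rconf
  rw [mem_filter, mem_image]
  refine ⟨⟨D, mem_filter.mpr ⟨hD, hcons⟩, ?_⟩, ?_, hUR⟩
  · congr!
  · rw [nonempty_iff_ne_empty]
    intro h1
    exact hclean (sdiff_eq_empty_iff_subset.mp h1)

end F2
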