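import Pool.Agent.F2.SpecZ

/-!
# Project F2, block Z, row Z6: the system is good
-/

set_option autoImplicit false
set_option linter.unusedSectionVars false

namespace F2

open Finset NW F1

/-- row Z6 -/
theorem syGood : SyGoodStatement := by
  classical
  intro c J s V _ _ E₂ X RT hh
  have hconf : ∀ U ∈ (syT c J RT hh E₂ X).conf, U.Nonempty ∧ U ⊆ triR E₂ ∪ triV E₂ X ∧
      ∃ D ∈ (triSys V J).conf, U ⊆ D := by
    intro U hU
    change U ∈ rconf c J RT hh (triR E₂ ∪ triV E₂ X) at hU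
    unfold rconf at hU
    rw [mem_filter, mem_image] at hU
    obtain ⟨⟨D, hD, rfl⟩, h1, h2⟩ := hU
    rw [mem_filter] at hD
    exact ⟨h1, h2, D, hD.1, sdiff_subset⟩
  refine ⟨?_, ?_, ?_, ?_, ?_, ?_, ?_, ?_⟩
  · intro T hT
    have h1 : NW.edg T.1 ⊆ E₂ := (mem_filter.1 hT).2
    change (NW.edg T.1 ∩ E₂).card = 3
    rw [inter_eq_left.2 h1]
    exact NW.card_edg_three T.2
  · intro T hT
    exact (mem_filter.1 hT).2.1
  · rw [disjoint_left]
    intro T hT hT'
    have h1 : NW.edg T.1 ⊆ E₂ := (mem_filter.1 hT).2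
    have h2 : (NW.edg T.1 ∩ E₂).card = 1 := (mem_filter.1 hT').2.1
    rw [inter_eq_left.2 h1, NW.card_edg_three T.2] at h2
    omega
  · intro T _ T' _ hne
    have h1 : ((syT c J RT hh E₂ X).ed T ∩ (syT c J RT hh E₂ X).ed T') ⊆
        NW.edg T.1 ∩ NW.edg T'.1 :=
      inter_subset_inter inter_subset_left inter_subset_left
    exact (card_le_card h1).trans (NW.edg_lin T.2 T'.2 (fun h' => hne (Subtype.ext h')))
  · intro U hU
    exact (hconf U hU).2.1
  · intro U hU
    exact (hconf U hU).1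
  · intro U hU
    obtain ⟨-, -, D, hD, hUD⟩ := hconf U hU
    exact (card_le_card hUD).trans (TriGood.conf_iff.1 hD).2.1
  · intro U hU T hT T' hT' hne
    obtain ⟨-, -, D, hD, hUD⟩ := hconf U hU
    have h1 := (TriGood.conf_iff.1 hD).2.2.1 T (hUD hT) T' (hUD hT') hne
    exact h1.mono inter_subset_left inter_subset_left

end F2
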