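import Pool.Agent.F2.SpecZ

/-!
# Project F2, block Z, row Z5: counting in the grid
-/

set_option autoImplicit false
set_option linter.unusedSectionVars false

namespace F2

open Finset NW F1
open Pool.Agent.F2 (HH GG Spread)

namespace GridZ

variable {V : Type} [Fintype V] [DecidableEq V] {E E₂ : Finset (Sym2 V)} {s : ℕ} {ro co : V → ℕ}

theorem mk_mem_Xs {a b : V} :
    s(a, b) ∈ Xs ro co E ↔ s(a, b) ∈ E ∧ (ro a = ro b ∨ co a = co b) := by
  unfold Xs
  rw [mem_filter]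
  constructor
  · rintro ⟨h, x, y, hxy, h1⟩
    refine ⟨h, ?_⟩
    rw [Sym2.eq_iff] at hxy
    rcases hxy with ⟨rfl, rfl⟩ | ⟨rfl, rfl⟩
    · exact h1
    · exact h1.imp Eq.symm Eq.symm
  · rintro ⟨h, h1⟩
    exact ⟨h, a, b, rfl, h1⟩

theorem mem_Rw {f : V → ℕ} {x : ℕ} {v : V} : v ∈ Rw f x ↔ f v = x := by
  unfold Rw
  simp

theorem mem_Pt {x y : ℕ} {v : V} : v ∈ Pt ro co x y ↔ ro v = x ∧ co v = y := by
  unfold Pt
  simp

theorem deg_le (hG : Grid E s ro co) (v : V) :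
    NW.deg (Xs ro co E) v * s ≤ 4 * Fintype.card V := by
  have h1 : NW.nbr (Xs ro co E) v ⊆ Rw ro (ro v) ∪ Rw co (co v) := by
    intro u hu
    rw [NW.mem_nbr, mk_mem_Xs] at hu
    rw [mem_union, mem_Rw, mem_Rw]
    exact hu.2.imp Eq.symm Eq.symm
  have h2 : NW.deg (Xs ro co E) v ≤ (Rw ro (ro v)).card + (Rw co (co v)).card :=
    (card_le_card h1).trans (card_union_le _ _)
  calc NW.deg (Xs ro co E) v * s ≤ ((Rw ro (ro v)).card + (Rw co (co v)).card) * s :=
        Nat.mul_le_mul_right _ h2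
    _ = (Rw ro (ro v)).card * s + (Rw co (co v)).card * s := Nat.add_mul _ _ _
    _ ≤ 2 * Fintype.card V + 2 * Fintype.card V := Nat.add_le_add (hG.row _) (hG.col _)
    _ = 4 * Fintype.card V := by ring

/-- the edges outside the reserve -/
theorem ne_of_mem (hE : NW.NL E) (h2 : E₂ ⊆ E \ Xs ro co E) {u v : V} (h : s(u, v) ∈ E₂) :
    u ≠ v ∧ ro u ≠ ro v ∧ co u ≠ co v := by
  have h3 := mem_sdiff.1 (h2 h)
  rw [mk_mem_Xs] at h3
  refine ⟨fun h4 => hE _ h3.1 (by rw [h4]; exact Sym2.mk_isDiag_iff.2 rfl), fun h4 =>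
    h3.2 ⟨h3.1, Or.inl h4⟩, fun h4 => h3.2 ⟨h3.1, Or.inr h4⟩⟩

/-- the third vertex of a triple with two reserve edges -/
theorem third (hE : NW.NL E) (h2 : E₂ ⊆ E \ Xs ro co E) {u v : V} (h : s(u, v) ∈ E₂)
    {T : Tri V} (hT : T ∈ triV E₂ (Xs ro co E)) (he : s(u, v) ∈ NW.edg T.1) :
    ∃ w ∈ Pt ro co (ro u) (co v) ∪ Pt ro co (ro v) (co u), T.1 = {u, v, w} := by
  obtain ⟨huv, hro, hco⟩ := ne_of_mem hE h2 h
  unfold triV at hT
  obtain ⟨-, hT1, hT2⟩ := mem_filter.1 hT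
  obtain ⟨hu, hv, -⟩ := mk_mem_edg.1 he
  have h1 : ({u, v} : Finset V) ⊆ T.1 := by
    intro x hx
    rcases mem_insert.1 hx with rfl | hx
    · exact hu
    · rw [mem_singleton.1 hx]
      exact hv
  have h3 : (T.1 \ {u, v}).card = 1 := by
    rw [card_sdiff_of_subset h1, T.2, card_pair huv]
  obtain ⟨w, hw⟩ := card_eq_one.1 h3
  have hwm : w ∈ T.1 \ {u, v} := by
    rw [hw]
    exact mem_singleton_self w
  rw [mem_sdiff, mem_insert, mem_singleton, not_or] at hwm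
  obtain ⟨hwT, hwu, hwv⟩ := hwm
  have hTe : T.1 = {u, v, w} := by
    have h4 : T.1 = {u, v} ∪ {w} := by rw [← hw, union_sdiff_of_subset h1]
    rw [h4]
    ext x
    simp
  obtain ⟨e', he'⟩ := card_eq_one.1 hT1
  have h5 : s(u, v) = e' := by
    have : s(u, v) ∈ NW.edg T.1 ∩ E₂ := mem_inter.2 ⟨he, h⟩
    rw [he'] at this
    exact mem_singleton.1 this
  have h6 : ∀ e ∈ NW.edg T.1, e ≠ s(u, v) → e ∈ Xs ro co E := by
    intro e he1 hne
    refine hT2 (mem_sdiff.2 ⟨he1, fun he2 => hne ?_⟩)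
    have : e ∈ NW.edg T.1 ∩ E₂ := mem_inter.2 ⟨he1, he2⟩
    rw [he'] at this
    rw [mem_singleton.1 this, h5]
  have h7 : s(u, w) ∈ Xs ro co E := by
    refine h6 _ (mk_mem_edg.2 ⟨hu, hwT, Ne.symm hwu⟩) fun h8 => hwv ?_
    exact Sym2.congr_right.1 h8
  have h8 : s(v, w) ∈ Xs ro co E := by
    refine h6 _ (mk_mem_edg.2 ⟨hv, hwT, Ne.symm hwv⟩) fun h9 => hwu ?_
    rw [Sym2.eq_swap (a := u) (b := v)] at h9
    exact Sym2.congr_right.1 h9
  rw [mk_mem_Xs] at h7 h8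
  refine ⟨w, ?_, hTe⟩
  rw [mem_union, mem_Pt, mem_Pt]
  rcases h7.2 with h9 | h9
  · rcases h8.2 with h10 | h10
    · exact absurd (h9.trans h10.symm) hro
    · exact Or.inl ⟨h9.symm, h10.symm⟩
  · rcases h8.2 with h10 | h10
    · exact Or.inr ⟨h10.symm, h9.symm⟩
    · exact absurd (h9.trans h10.symm) hco

theorem upper (hE : NW.NL E) (hG : Grid E s ro co) (h2 : E₂ ⊆ E \ Xs ro co E) {u v : V}
    (h : s(u, v) ∈ E₂) :
    ((triV E₂ (Xs ro co E)).filter (fun T => s(u, v) ∈ NW.edg T.1)).card * s ^ 2 ≤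
      4 * Fintype.card V := by
  set S := (triV E₂ (Xs ro co E)).filter (fun T => s(u, v) ∈ NW.edg T.1) with hS
  have h1 : S.image Subtype.val ⊆
      (Pt ro co (ro u) (co v) ∪ Pt ro co (ro v) (co u)).image (fun w => {u, v, w}) := by
    intro A hA
    obtain ⟨T, hT, rfl⟩ := mem_image.1 hA
    rw [hS, mem_filter] at hT
    obtain ⟨w, hw, hTe⟩ := third hE h2 h hT.1 hT.2
    exact mem_image.2 ⟨w, hw, hTe.symm⟩
  have h3 : S.card ≤ (Pt ro co (ro u) (co v)).card + (Pt ro co (ro v) (co u)).card := by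
    rw [← card_image_of_injective S Subtype.val_injective]
    exact (card_le_card h1).trans (card_image_le.trans (card_union_le _ _))
  calc S.card * s ^ 2 ≤ ((Pt ro co (ro u) (co v)).card + (Pt ro co (ro v) (co u)).card) * s ^ 2 :=
        Nat.mul_le_mul_right _ h3
    _ = (Pt ro co (ro u) (co v)).card * s ^ 2 + (Pt ro co (ro v) (co u)).card * s ^ 2 :=
        Nat.add_mul _ _ _
    _ ≤ 2 * Fintype.card V + 2 * Fintype.card V := Nat.add_le_add (hG.part _ _) (hG.part _ _)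
    _ = 4 * Fintype.card V := by ring

theorem lower (hE : NW.NL E) (hG : Grid E s ro co) (h2 : E₂ ⊆ E \ Xs ro co E) {u v : V}
    (h : s(u, v) ∈ E₂) :
    Fintype.card V ≤
      4 * s ^ 2 * ((triV E₂ (Xs ro co E)).filter (fun T => s(u, v) ∈ NW.edg T.1)).card := by
  obtain ⟨huv, hro, hco⟩ := ne_of_mem hE h2 h
  set S := (triV E₂ (Xs ro co E)).filter (fun T => s(u, v) ∈ NW.edg T.1) with hS
  refine (hG.cod (ro u) (hG.ro_lt u) (co v) (hG.co_lt v) u v).trans (Nat.mul_le_mul_left _ ?_)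
  rw [← card_image_of_injective S Subtype.val_injective]
  have hne : ∀ w, s(u, w) ∈ E ∧ s(v, w) ∈ E → w ≠ u ∧ w ≠ v := by
    rintro w ⟨h3, h4⟩
    exact ⟨fun h5 => hE _ h3 (by rw [h5]; exact Sym2.mk_isDiag_iff.2 rfl),
      fun h5 => hE _ h4 (by rw [h5]; exact Sym2.mk_isDiag_iff.2 rfl)⟩
  apply card_le_card_of_injOn (fun w => ({u, v, w} : Finset V))
  · intro w hw
    rw [mem_coe, mem_filter, mem_Pt] at hw
    obtain ⟨⟨hw1, hw2⟩, hw3, hw4⟩ := hw
    obtain ⟨hwu, hwv⟩ := hne w ⟨hw3, hw4⟩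
    have hc : ({u, v, w} : Finset V).card = 3 :=
      card_eq_three.2 ⟨u, v, w, huv, Ne.symm hwu, Ne.symm hwv, rfl⟩
    have hX1 : s(u, w) ∈ Xs ro co E := mk_mem_Xs.2 ⟨hw3, Or.inl hw1.symm⟩
    have hX2 : s(v, w) ∈ Xs ro co E := mk_mem_Xs.2 ⟨hw4, Or.inr hw2.symm⟩
    have hn : ∀ e ∈ Xs ro co E, e ∉ E₂ := fun e he he2 => (mem_sdiff.1 (h2 he2)).2 he
    have hed : NW.edg ({u, v, w} : Finset V) = {s(u, v), s(v, w), s(u, w)} :=
      edg_triple huv (Ne.symm hwv) (Ne.symm hwu)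
    rw [mem_coe, mem_image]
    refine ⟨⟨{u, v, w}, hc⟩, ?_, rfl⟩
    rw [hS, mem_filter]
    unfold triV
    rw [mem_filter]
    refine ⟨⟨mem_univ _, ?_, ?_⟩, ?_⟩
    · have h5 : NW.edg ({u, v, w} : Finset V) ∩ E₂ = {s(u, v)} := by
        rw [hed]
        ext e
        simp only [mem_inter, mem_insert, mem_singleton]
        constructor
        · rintro ⟨rfl | rfl | rfl, h6⟩
          · rfl
          · exact absurd h6 (hn _ hX2)
          · exact absurd h6 (hn _ hX1)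
        · rintro rfl
          exact ⟨Or.inl rfl, h⟩
      simp only [h5, card_singleton]
    · intro e he
      simp only at he
      rw [mem_sdiff, hed] at he
      simp only [mem_insert, mem_singleton] at he
      obtain ⟨rfl | rfl | rfl, h6⟩ := he
      · exact absurd h h6
      · exact hX2
      · exact hX1
    · simp only
      rw [hed]
      exact mem_insert_self _ _
  · intro w hw w' hw' heq
    rw [mem_coe, mem_filter] at hw hw'
    obtain ⟨hwu, hwv⟩ := hne w hw.2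
    simp only at heq
    have h5 : w ∈ ({u, v, w'} : Finset V) := by
      rw [← heq]
      simp
    rw [mem_insert, mem_insert, mem_singleton] at h5
    rcases h5 with h5 | h5 | h5
    · exact absurd h5 hwu
    · exact absurd h5 hwv
    · exact h5

end GridZ

theorem gridCount : GridCountStatement := by
  intro V _ _ E E₂ s ro co hE hG h2
  refine ⟨GridZ.deg_le hG, ?_, ?_⟩
  · intro e he
    induction e using Sym2.ind with
    | _ u v => exact GridZ.upper hE hG h2 he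
  · intro e he
    induction e using Sym2.ind with
    | _ u v => exact GridZ.lower hE hG h2 he

end F2
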