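import Pool.Agent.F2.SpecZ
import Pool.Agent.NW.NibbleOfLin

/-!
# Project F2, row Z7: the hypotheses of the abstract nibble
-/

set_option autoImplicit false
set_option linter.unusedSectionVars false

namespace F2

open Finset NW F1
open Pool.Agent.F2 (HH GG Spread)

private theorem hyp_y0_le {ι τ : Type} [Fintype ι] [Fintype τ] [DecidableEq ι] [DecidableEq τ]
    (S : Sy ι τ) {X0 X1 : τ → ℝ} (h : ∀ T, X0 T ≤ X1 T) (ν : ℝ) (T : τ) :
    S.y0 X0 ν T ≤ S.y0 X1 ν T := by
  unfold Sy.y0
  split_ifs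
  · linarith [h T]
  · exact le_rfl
  · exact le_rfl

private theorem hyp_y0_nonneg {ι τ : Type} [Fintype ι] [Fintype τ] [DecidableEq ι]
    [DecidableEq τ] (S : Sy ι τ) {X0 : τ → ℝ} (h : ∀ T, 0 ≤ X0 T) {ν : ℝ} (hν : 0 ≤ ν) (T : τ) :
    0 ≤ S.y0 X0 ν T := by
  unfold Sy.y0
  split_ifs
  · linarith [h T]
  · exact hν
  · exact le_rfl

private theorem hyp_card_tri (V : Type) [Fintype V] [DecidableEq V] :
    (Fintype.card (Tri V) : ℝ) ≤ (Fintype.card V : ℝ) ^ 3 := by
  have h1 : Fintype.card (Tri V) = (Fintype.card V).choose 3 := by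
    rw [Fintype.card_subtype]
    have h2 : (univ.filter (fun t : Finset V => t.card = 3)) = (univ : Finset V).powersetCard 3 := by
      ext t
      simp [Finset.mem_powersetCard]
    rw [h2, Finset.card_powersetCard, Finset.card_univ]
  rw [h1]
  exact_mod_cast Nat.choose_le_pow _ _

theorem hyp (hg : SyGoodStatement) : HypStatement := by
  classical
  intro c J k C s K K₂ K' θ ω hK hKK hK₂ hs V _ _ E' X RT hh w hn hB hNL hdis hdeg hcount hcountlo
    hw0 hw1 hwne hwsum hν hJθ hθ8
  set E₂ := E' \ bEs c RT hh with hE₂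
  set S := syT c J RT hh E₂ X with hS
  set n : ℝ := (Fintype.card V : ℝ) with hndef
  have hn1 : (1 : ℝ) ≤ n := by rw [hndef]; exact_mod_cast hn
  have hn0 : 0 < n := lt_of_lt_of_le one_pos hn1
  have hs1 : (1 : ℝ) ≤ s := by exact_mod_cast hs
  have hs0 : (0 : ℝ) < s := lt_of_lt_of_le one_pos hs1
  set ν : ℝ := (s : ℝ) ^ 2 / n with hνdef
  have hν0 : 0 < ν := by positivity
  have hNL₂ : NW.NL E₂ := fun e he => hNL e (Finset.mem_sdiff.1 he).1
  have hgood : S.Good J := hg c J s V E₂ X RT hh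
  have hSR : S.R = triR E₂ := rfl
  have hSV : S.Vt = triV E₂ X := rfl
  have hSed : ∀ T : Tri V, S.ed T = NW.edg T.1 ∩ E₂ := fun _ => rfl
  have hR : ∀ T ∈ triR E₂, NW.edg T.1 ⊆ E₂ := fun T hT => (Finset.mem_filter.1 hT).2
  have hwy : ∀ T, S.y0 w ν T ≤ S.y0 (fun _ => K / n) ν T := hyp_y0_le S hw1 ν
  have hwy0 : ∀ T, 0 ≤ S.y0 w ν T := hyp_y0_nonneg S hw0 hν0.le
  have hGG : ∀ (UU : Finset (Finset (Tri V))), GG (n ^ (-(19 / 20) : ℝ)) (S.y0 w ν) UU k ≤
      GG (n ^ (-(19 / 20) : ℝ)) (S.y0 (fun _ => K / n) ν) UU k := fun UU =>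
    Pool.Agent.F2.GG_mono (Real.rpow_nonneg hn0.le _) le_rfl hwy0 hwy subset_rfl k
  refine ⟨fun T => if T ∈ triV E₂ X ∧ {T} ∉ S.conf then ν else 0, ?_⟩
  refine
    { good := hgood
      E_lo := ?_
      E_hi := ?_
      cτ := hyp_card_tri V
      cσ := le_rfl
      ν_pos := hν0
      ν_le := hν
      X_nonneg := hw0
      X_le := fun T => (hw1 T).trans (div_le_div_of_nonneg_right hKK hn0.le)
      X_ne := ?_
      X_one := ?_
      x_nonneg := ?_
      x_le := ?_
      x_ne := ?_
      x_lo := ?_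
      V_hi := ?_
      Q_sub := fun v => Finset.filter_subset _ _
      Q_card := ?_
      hY := ?_
      hF := ?_
      mA := ?_
      mA' := ?_
      mB := ?_
      mE := ?_ }
  · -- E_lo
    have h1 := NW.sum_deg hNL₂
    have h2 : (∑ v : V, n) ≤ ∑ v : V, 2 * (NW.deg E₂ v : ℝ) :=
      Finset.sum_le_sum fun v _ => by rw [hndef]; exact_mod_cast hdeg v
    rw [← Finset.mul_sum, Finset.sum_const, Finset.card_univ, nsmul_eq_mul] at h2
    have h3 : (∑ v : V, (NW.deg E₂ v : ℝ)) = 2 * (E₂.card : ℝ) := by exact_mod_cast h1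
    rw [h3] at h2
    have h4 : n * n ≤ 2 * (2 * (E₂.card : ℝ)) := h2
    nlinarith
  · -- E_hi
    have h1 := NW.card_le_sq hNL₂
    have h2 : (2 : ℝ) * (E₂.card : ℝ) ≤ n * n := by rw [hndef]; exact_mod_cast h1
    have h3 : (0 : ℝ) ≤ (E₂.card : ℝ) := Nat.cast_nonneg _
    nlinarith
  · -- X_ne
    intro T hT
    obtain ⟨h1, h2⟩ := hwne T hT
    exact ⟨Finset.mem_filter.2 ⟨Finset.mem_univ _, h1⟩, Finset.inter_subset_right, h2⟩
  · -- X_one
    intro e he
    rw [← hwsum e he]
    refine Finset.sum_subset_zero_on_sdiff ?_ ?_ (fun _ _ => rfl)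
    · intro T hT
      have h1 := (Finset.mem_filter.1 hT).2
      rw [hSed] at h1
      exact Finset.mem_filter.2 ⟨Finset.mem_univ _, (Finset.mem_inter.1 h1).1⟩
    · intro T hT
      obtain ⟨h1, h2⟩ := Finset.mem_sdiff.1 hT
      by_contra h3
      obtain ⟨h4, -⟩ := hwne T h3
      refine h2 (Finset.mem_filter.2 ⟨Finset.mem_filter.2 ⟨Finset.mem_univ _, h4⟩, ?_⟩)
      rw [hSed]
      exact Finset.mem_inter.2 ⟨(Finset.mem_filter.1 h1).2, he⟩
  · intro T
    split_ifs
    · exact hν0.le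
    · exact le_rfl
  · intro T
    split_ifs
    · exact le_rfl
    · exact hν0.le
  · intro T hT
    split_ifs at hT with h
    · exact h
    · exact absurd rfl hT
  · -- x_lo
    intro e he
    have hfil : S.Vt.filter (fun T => e ∈ S.ed T) =
        (triV E₂ X).filter (fun T => e ∈ NW.edg T.1) := by
      ext T
      rw [Finset.mem_filter, Finset.mem_filter, hSV, hSed, Finset.mem_inter]
      tauto
    rw [hfil]
    set A := (triV E₂ X).filter (fun T => e ∈ NW.edg T.1) with hA
    have hsum : ∑ T ∈ A, (if T ∈ triV E₂ X ∧ {T} ∉ S.conf then ν else 0) =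
        ((A.filter (fun T => {T} ∉ S.conf)).card : ℝ) * ν := by
      rw [← nsmul_eq_mul, ← Finset.sum_const]
      conv_rhs => rw [Finset.sum_filter]
      refine Finset.sum_congr rfl fun T hT => ?_
      have h1 : T ∈ triV E₂ X := (Finset.mem_filter.1 hT).1
      simp only [h1, true_and]
    rw [hsum]
    have hsplit : (A.filter (fun T => {T} ∈ S.conf)).card +
        (A.filter (fun T => {T} ∉ S.conf)).card = A.card :=
      Finset.card_filter_add_card_filter_not _
    have hsplit' : ((A.filter (fun T => {T} ∈ S.conf)).card : ℝ) +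
        ((A.filter (fun T => {T} ∉ S.conf)).card : ℝ) = (A.card : ℝ) := by
      exact_mod_cast hsplit
    have hlo : n ≤ 4 * (s : ℝ) ^ 2 * (A.card : ℝ) := by
      rw [hndef]
      exact_mod_cast hcountlo e he
    have hth : ((A.filter (fun T => {T} ∈ S.conf)).card : ℝ) * (s : ℝ) ^ 2 ≤
        n ^ (1 - θ / 2) := by
      have h1 := hB.thV e he
      have h2 : A.filter (fun T => {T} ∈ S.conf) =
          (triV E₂ X).filter (fun T => e ∈ NW.edg T.1 ∧ {T} ∈ S.conf) := by
        rw [hA, Finset.filter_filter]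
      rw [h2]
      exact h1
    have hpow : n ^ (1 - θ / 2) = n * n ^ (-(θ / 2)) := by
      rw [sub_eq_add_neg, Real.rpow_add hn0, Real.rpow_one]
    have hth2 : ((A.filter (fun T => {T} ∈ S.conf)).card : ℝ) * (s : ℝ) ^ 2 ≤ n * (1 / 8) := by
      rw [hpow] at hth
      exact hth.trans (mul_le_mul_of_nonneg_left hθ8 hn0.le)
    rw [hνdef, mul_div_assoc', le_div_iff₀ hn0]
    nlinarith
  · -- V_hi
    intro e
    by_cases he : e ∈ E₂
    · have heE : e ∈ E' := (Finset.mem_sdiff.1 he).1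
      have hsub : S.Vt.filter (fun T => e ∈ S.ed T) ⊆
          (triV E' X).filter (fun T => e ∈ NW.edg T.1) := by
        intro T hT
        obtain ⟨h1, h2⟩ := Finset.mem_filter.1 hT
        rw [hSed] at h2
        rw [hSV] at h1
        obtain ⟨h3, h4⟩ := (Finset.mem_filter.1 h1).2
        have h5 : NW.edg T.1 ∩ E' = NW.edg T.1 ∩ E₂ := by
          ext f
          rw [Finset.mem_inter, Finset.mem_inter]
          constructor
          · rintro ⟨hf, hfE⟩
            refine ⟨hf, ?_⟩
            by_contra hfE₂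
            have h6 : f ∈ X := h4 (Finset.mem_sdiff.2 ⟨hf, hfE₂⟩)
            exact Finset.disjoint_left.1 hdis hfE h6
          · rintro ⟨hf, hfE⟩
            exact ⟨hf, (Finset.mem_sdiff.1 hfE).1⟩
        refine Finset.mem_filter.2 ⟨Finset.mem_filter.2 ⟨Finset.mem_univ _, ?_, ?_⟩,
          (Finset.mem_inter.1 h2).1⟩
        · rw [h5]
          exact h3
        · intro f hf
          obtain ⟨hf1, hf2⟩ := Finset.mem_sdiff.1 hf
          refine h4 (Finset.mem_sdiff.2 ⟨hf1, fun hf3 => hf2 (Finset.mem_sdiff.1 hf3).1⟩)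
      have h1 : ((S.Vt.filter (fun T => e ∈ S.ed T)).card : ℝ) ≤
          (((triV E' X).filter (fun T => e ∈ NW.edg T.1)).card : ℝ) := by
        exact_mod_cast Finset.card_le_card hsub
      have h2 : (((triV E' X).filter (fun T => e ∈ NW.edg T.1)).card : ℝ) * (s : ℝ) ^ 2 ≤
          4 * n := by
        rw [hndef]
        exact_mod_cast hcount e heE
      rw [hνdef, mul_div_assoc', div_le_iff₀ hn0]
      exact (mul_le_mul_of_nonneg_right h1 (by positivity)).trans h2
    · have h1 : S.Vt.filter (fun T => e ∈ S.ed T) = ∅ := by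
        rw [Finset.filter_eq_empty_iff]
        intro T _ h2
        rw [hSed] at h2
        exact he (Finset.mem_inter.1 h2).2
      rw [h1, Finset.card_empty, Nat.cast_zero, zero_mul]
      norm_num
  · -- Q_card
    intro v
    have h1 : (E₂.filter (fun e => v ∈ e)).card = NW.deg E₂ v := NW.card_star E₂ v
    have h2 := NW.deg_le_cardV E₂ v
    show (((E₂.filter (fun e => v ∈ e)).card : ℕ) : ℝ) ≤ n
    rw [h1, hndef]
    exact_mod_cast h2
  · -- hY
    intro T hT
    refine (Finset.sum_le_sum fun U hU => ?_).trans ((hB.hY T hT).trans hK₂)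
    have h1 : T ∈ U := (Finset.mem_filter.1 hU).2.1
    rw [← Finset.card_erase_of_mem h1, ← Finset.prod_const]
    refine Finset.prod_le_prod (fun T' _ => ?_) (fun T' _ => ?_)
    · linarith [hw0 T']
    · rw [mul_div_assoc]
      linarith [hw1 T']
  · -- hF
    intro e he
    refine (Finset.sum_le_sum fun U _ => ?_).trans ((hB.hF e he).trans hJθ)
    exact Finset.prod_le_prod (fun T _ => hwy0 T) (fun T _ => hwy T)
  · intro T T' h
    exact (hGG _).trans (hB.mA T T' h)
  · intro T T' h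
    exact (hGG _).trans (hB.mA' T T' h)
  · intro T hT e he h
    refine (hGG _).trans (hB.mB T hT e he fun h1 => h ?_)
    rw [hSed]
    exact Finset.mem_inter.2 ⟨h1, he⟩
  · intro T hT T' hT' h
    exact (hGG _).trans (hB.mE T hT T' hT' h)

end F2
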