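import Pool.Agent.F2.SpecZ

/-!
# Project F2, block Z, row Z9: the numbers
-/

set_option autoImplicit false
set_option linter.unusedSectionVars false

namespace F2

open Filter

theorem numZ_neg {y δ : ℝ} (hy : 0 < y) (hδ : 0 < δ) :
    ∀ᶠ n : ℕ in atTop, (n : ℝ) ^ (-y) ≤ δ := by
  have h1 : Tendsto (fun n : ℕ => (n : ℝ) ^ (-y)) atTop (nhds 0) :=
    (tendsto_rpow_neg_atTop hy).comp tendsto_natCast_atTop_atTop
  exact (h1.eventually (gt_mem_nhds hδ)).mono fun n h => le_of_lt h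

theorem numZ_pos {y : ℝ} (hy : 0 < y) (B : ℝ) : ∀ᶠ n : ℕ in atTop, B ≤ (n : ℝ) ^ y := by
  have h1 : Tendsto (fun n : ℕ => (n : ℝ) ^ y) atTop atTop :=
    (tendsto_rpow_atTop hy).comp tendsto_natCast_atTop_atTop
  exact h1.eventually (eventually_ge_atTop B)

/-- row Z9 -/
theorem numZ : NumZStatement := by
  intro J C ε κ η ω θ hJ hε hκ hη hω hθ hω1 hJω
  have hJ3 : (3 : ℝ) ≤ J := by exact_mod_cast hJ
  have h72 : 72 * θ ≤ ω := by nlinarith
  have e1 := numZ_neg (y := θ / 2) (δ := 1 / 8) (by positivity) (by norm_num)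
  have e2 := numZ_neg (y := θ / 2) (δ := κ) (by positivity) hκ
  have e3 := numZ_neg (y := θ / 2) (δ := ε) (by positivity) hε
  have e4 := numZ_neg (y := ω / 2) (δ := η) (by positivity) hη
  have e5 := numZ_neg (y := ω / 4) (δ := η / 2) (by positivity) (by positivity)
  have e6 := numZ_pos (y := θ) hθ ((C : ℝ) + 2)
  have e7 := numZ_pos (y := θ) hθ ((C : ℝ) / ε + 1)
  have e8 := numZ_pos (y := 1 - θ) (by linarith) (C : ℝ)
  obtain ⟨n₀, hn₀⟩ := eventually_atTop.1 ((eventually_ge_atTop 1).and (e1.and (e2.and (e3.and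
    (e4.and (e5.and (e6.and (e7.and e8))))))))
  refine ⟨n₀, ?_⟩
  intro n s hn hs1 hs2
  obtain ⟨a0, a1, a2, a3, a4, a5, a6, a7, a8⟩ := hn₀ n hn
  have hn1 : (1 : ℝ) ≤ n := by exact_mod_cast a0
  have hn0 : (0 : ℝ) < n := by linarith
  have hs0 : (0 : ℝ) ≤ s := Nat.cast_nonneg s
  have hC0 : (0 : ℝ) ≤ C := Nat.cast_nonneg C
  have hsq : (s : ℝ) ^ 2 ≤ (n : ℝ) ^ (2 * θ) := by
    calc (s : ℝ) ^ 2 ≤ ((n : ℝ) ^ θ) ^ 2 := by gcongr
      _ = (n : ℝ) ^ (2 * θ) := by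
        rw [← Real.rpow_natCast, ← Real.rpow_mul hn0.le]
        congr 1
        push_cast
        ring
  have hns : (n : ℝ) * (n : ℝ) ^ (-(θ / 2)) = (n : ℝ) ^ (1 - θ / 2) := by
    rw [sub_eq_add_neg, Real.rpow_add hn0, Real.rpow_one]
  refine ⟨a0, ?_, ?_, ?_, ?_, ?_, a1, ?_, a4, ?_, ?_, ?_⟩
  · have : (C : ℝ) ≤ s := by linarith
    exact_mod_cast this
  · have : (1 : ℝ) ≤ s := by linarith
    exact_mod_cast this
  · have : ((C * s : ℕ) : ℝ) ≤ n := by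
      push_cast
      calc (C : ℝ) * s ≤ (n : ℝ) ^ (1 - θ) * (n : ℝ) ^ θ :=
            mul_le_mul a8 hs1 hs0 (by positivity)
        _ = n := by
          rw [← Real.rpow_add hn0]
          simp
    exact_mod_cast this
  · rw [div_le_iff₀ hn0]
    calc (s : ℝ) ^ 2 ≤ (n : ℝ) ^ (2 * θ) := hsq
      _ ≤ (n : ℝ) ^ (ω / 8) := Real.rpow_le_rpow_of_exponent_le hn1 (by linarith)
      _ = (n : ℝ) ^ (-1 + ω / 8) * n := by
        nth_rewrite 3 [← Real.rpow_one (n : ℝ)]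
        rw [← Real.rpow_add hn0]
        congr 1
        ring
  · exact Real.rpow_le_rpow_of_exponent_le hn1 (by nlinarith)
  · calc 2 * (s : ℝ) ^ 2 * (n : ℝ) ^ (-(ω / 2))
        ≤ 2 * (n : ℝ) ^ (2 * θ) * (n : ℝ) ^ (-(ω / 2)) := by gcongr
      _ = 2 * (n : ℝ) ^ (2 * θ + -(ω / 2)) := by
        rw [mul_assoc, ← Real.rpow_add hn0]
      _ ≤ 2 * (n : ℝ) ^ (-(ω / 4)) := by
        have := Real.rpow_le_rpow_of_exponent_le hn1
          (show 2 * θ + -(ω / 2) ≤ -(ω / 4) by linarith)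
        linarith
      _ ≤ η := by linarith
  · rw [← hns]
    nlinarith
  · rw [← hns]
    nlinarith
  · have h1 : (C : ℝ) / ε ≤ s := by linarith
    rw [div_le_iff₀ hε] at h1
    linarith

end F2
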