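import Pool.Agent.F2.SpecZ

/-!
# Project F2, row Z12: the form for simple graphs
-/

set_option autoImplicit false
set_option linter.unusedSectionVars false

namespace F2

open Finset NW F1

/-- the form for simple graphs -/
theorem simple (h : MainStatement) : SimpleStatement := by
  intro g ε hε
  obtain ⟨n₀, h1⟩ := h g ε hε
  refine ⟨n₀, fun n hn G _ heven hdvd hdeg => ?_⟩
  have hdegG : ∀ v, NW.deg G.edgeFinset v = G.degree v := by
    intro v
    unfold NW.deg
    rw [← SimpleGraph.card_neighborFinset_eq_degree]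
    congr 1
    ext u
    simp [NW.mem_nbr]
  have hNL : NW.NL G.edgeFinset := fun e he => by
    rw [SimpleGraph.mem_edgeFinset] at he
    exact G.not_isDiag_of_mem_edgeSet he
  obtain ⟨T, hT, hTE, hTg⟩ := h1 (Fin n) G.edgeFinset
    ⟨hNL, fun v => by rw [hdegG]; exact heven v, hdvd⟩
    (by rwa [Fintype.card_fin])
    (fun v => by rw [Fintype.card_fin, hdegG]; exact hdeg v)
  refine ⟨T, ?_, ?_, hTg⟩
  · intro t ht
    obtain ⟨hc, hs⟩ := hT.1 t ht
    refine ⟨?_, hc⟩
    intro a ha b hb hab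
    have : s(a, b) ∈ G.edgeFinset := hs (NW.mk_mem_edg.2 ⟨ha, hb, hab⟩)
    simpa using this
  · intro u v huv
    have he : s(u, v) ∈ T.biUnion NW.edg := by
      rw [hTE]
      simpa using huv
    rw [mem_biUnion] at he
    obtain ⟨t, ht, hte⟩ := he
    rw [NW.mk_mem_edg] at hte
    refine ⟨t, ⟨ht, hte.1, hte.2.1⟩, ?_⟩
    rintro t' ⟨ht', hu', hv'⟩
    by_contra hne
    exact disjoint_left.1 (hT.2 t' ht' t ht hne)
      (NW.mk_mem_edg.2 ⟨hu', hv', huv.ne⟩) (NW.mk_mem_edg.2 hte)

end F2
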