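import Pool.Agent.F2.SpecZ

/-!
# Project F2, row Z8: from the abstract nibble to the cover
-/

set_option autoImplicit false
set_option linter.unusedSectionVars false

namespace F2

open Finset NW F1
open Pool.Agent.F2 (HH GG Spread)

namespace ToCov

variable {V : Type} [Fintype V] [DecidableEq V]

theorem card_edg (T : Tri V) : (NW.edg T.1).card = 3 := by
  obtain ⟨a, b, d, hab, had, hbd, h⟩ := Finset.card_eq_three.1 T.2
  rw [h, NW.edg_triple hab hbd had]
  exact NW.card_tri hab hbd had

/-- a triple with two different edges is determined by them -/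
theorem sub_of_two' {T : Finset V} (hT : T.card = 3) {U : Finset V} {e f : Sym2 V}
    (hef : e ≠ f) (he : e ∈ NW.edg T) (hf : f ∈ NW.edg T) (he' : e ∈ NW.edg U)
    (hf' : f ∈ NW.edg U) : T ⊆ U := by
  obtain ⟨a, b, d, hab, had, hbd, h⟩ := Finset.card_eq_three.1 hT
  subst h
  rw [NW.edg_triple hab hbd had, NW.mem_tri] at he hf
  intro v hv
  simp only [Finset.mem_insert, Finset.mem_singleton] at hv
  rcases he with rfl | rfl | rfl <;> rcases hf with rfl | rfl | rfl <;>
    first
    | exact absurd rfl hef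
    | (rw [NW.mk_mem_edg] at he' hf'
       rcases hv with rfl | rfl | rfl
       · first | exact he'.1 | exact he'.2.1 | exact hf'.1 | exact hf'.2.1
       · first | exact he'.1 | exact he'.2.1 | exact hf'.1 | exact hf'.2.1
       · first | exact he'.1 | exact he'.2.1 | exact hf'.1 | exact hf'.2.1)

/-- the triples with the reserve edge `f` whose edge in `E` is in `F` -/
theorem count (E X F : Finset (Sym2 V)) (a b : V) (hab : a ≠ b) :
    ((triV E X).filter (fun T => s(a, b) ∈ NW.edg T.1 \ E ∧ NW.edg T.1 ∩ E ⊆ F)).card ≤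
      (F.filter (fun e => a ∈ e)).card + (F.filter (fun e => b ∈ e)).card := by
  classical
  refine le_trans ?_ (Finset.card_union_le _ _)
  have key : ∀ T ∈ (triV E X).filter (fun T => s(a, b) ∈ NW.edg T.1 \ E ∧ NW.edg T.1 ∩ E ⊆ F),
      ∃ g, NW.edg T.1 ∩ E = {g} ∧ g ∈ F.filter (fun e => a ∈ e) ∪ F.filter (fun e => b ∈ e) ∧
        g ≠ s(a, b) ∧ g ∈ NW.edg T.1 ∧ s(a, b) ∈ NW.edg T.1 := by
    intro T hT
    rw [Finset.mem_filter] at hT
    obtain ⟨hTV, hf, hF⟩ := hT
    unfold triV at hTV
    rw [Finset.mem_filter] at hTV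
    obtain ⟨g, hg⟩ := Finset.card_eq_one.1 hTV.2.1
    rw [Finset.mem_sdiff] at hf
    have hgm : g ∈ NW.edg T.1 ∩ E := by rw [hg]; exact Finset.mem_singleton_self g
    have hgF : g ∈ F := hF hgm
    rw [Finset.mem_inter] at hgm
    have hne : g ≠ s(a, b) := by
      intro he
      exact hf.2 (he ▸ hgm.2)
    refine ⟨g, hg, ?_, hne, hgm.1, hf.1⟩
    have hT3 : T.1.card = 3 := T.2
    have hab' := NW.mk_mem_edg.1 hf.1
    -- `g` meets `{a, b}`
    rw [Finset.mem_union, Finset.mem_filter, Finset.mem_filter]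
    by_contra hcon
    push Not at hcon
    have hga : a ∉ g := hcon.1 hgF
    have hgb : b ∉ g := hcon.2 hgF
    obtain ⟨hgT, hgd⟩ := NW.mem_edg.1 hgm.1
    revert hgT hgd hga hgb
    refine Sym2.ind (fun x y => ?_) g
    intro hga hgb hgT hgd
    simp only [Sym2.mem_iff, not_or] at hga hgb
    have hx : x ∈ T.1 := hgT x (by simp)
    have hy : y ∈ T.1 := hgT y (by simp)
    have hxy : x ≠ y := by simpa using hgd
    have hsub : ({a, b, x, y} : Finset V) ⊆ T.1 := by
      intro v hv
      simp only [Finset.mem_insert, Finset.mem_singleton] at hv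
      rcases hv with rfl | rfl | rfl | rfl
      · exact hab'.1
      · exact hab'.2.1
      · exact hx
      · exact hy
    have h4 : ({a, b, x, y} : Finset V).card = 4 := by
      rw [Finset.card_insert_of_notMem, Finset.card_insert_of_notMem,
        Finset.card_insert_of_notMem, Finset.card_singleton]
      · simpa using hxy
      · simp only [Finset.mem_insert, Finset.mem_singleton, not_or]
        exact ⟨hgb.1, hgb.2⟩
      · simp only [Finset.mem_insert, Finset.mem_singleton, not_or]
        exact ⟨hab, hga.1, hga.2⟩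
    have := Finset.card_le_card hsub
    omega
  refine le_trans (Finset.card_le_card_of_injOn (t := (F.filter (fun e => a ∈ e) ∪
    F.filter (fun e => b ∈ e)).image (fun g => ({g} : Finset (Sym2 V))))
    (fun T => NW.edg T.1 ∩ E) ?_ ?_) Finset.card_image_le
  · intro T hT
    obtain ⟨g, hg, hgm, -⟩ := key T (Finset.mem_coe.1 hT)
    refine Finset.mem_coe.2 (Finset.mem_image.2 ⟨g, hgm, ?_⟩)
    show {g} = NW.edg T.1 ∩ E
    rw [hg]
  · intro T hT T' hT' hTT
    obtain ⟨g, hg, -, hne, hgT, hfT⟩ := key T (Finset.mem_coe.1 hT)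
    obtain ⟨g', hg', -, -, hgT', hfT'⟩ := key T' (Finset.mem_coe.1 hT')
    have hgg : g = g' := by
      have h1 : NW.edg T.1 ∩ E = NW.edg T'.1 ∩ E := hTT
      rw [hg, hg'] at h1
      exact Finset.singleton_injective h1
    subst hgg
    exact Subtype.ext (Finset.Subset.antisymm (sub_of_two' T.2 hne hgT hfT hgT' hfT')
      (sub_of_two' T'.2 hne hgT' hfT' hgT hfT))

end ToCov

theorem toCov (h : CoverStatement) : ToCovStatement := by
  intro J C hC
  obtain ⟨η, hη, H⟩ := h J C hC
  refine ⟨η, hη, ?_⟩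
  intro c s ω V _ _ E₂ X RT hh M x hV hs hNL hdis hgood hout h1 h2
  have hn : (0 : ℝ) < (Fintype.card V : ℝ) := by
    have : 0 < Fintype.card V := by omega
    exact_mod_cast this
  have hs0 : (0 : ℝ) < (s : ℝ) := by exact_mod_cast hs
  have hν : (0 : ℝ) < (s : ℝ) ^ 2 / Fintype.card V := div_pos (pow_pos hs0 2) hn
  -- the edges of the triangles of `M`
  have hMR : M ⊆ triR E₂ := hout.M_sub
  have hedR : ∀ T ∈ triR E₂, NW.edg T.1 ∩ E₂ = NW.edg T.1 := by
    intro T hT
    unfold triR at hT
    exact Finset.inter_eq_left.2 (Finset.mem_filter.1 hT).2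
  have hbi : M.biUnion (syT c J RT hh E₂ X).ed = M.biUnion (fun T => NW.edg T.1) := by
    refine Finset.biUnion_congr rfl ?_
    intro T hT
    exact hedR T (hMR hT)
  have hEf : E₂ \ M.biUnion (syT c J RT hh E₂ X).ed = Lo E₂ M := by
    rw [hbi]; rfl
  haveI : Nonempty (Tri V) := by
    obtain ⟨t, -, ht⟩ := Finset.exists_subset_card_eq (s := (univ : Finset V)) (n := 3)
      (by rw [Finset.card_univ]; exact hV)
    exact ⟨⟨t, ht⟩⟩
  obtain ⟨ch, hch1, hch2, hch3⟩ := H (Sym2 V) (Tri V) (Sym2 V) (syT c J RT hh E₂ X)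
    (fun T => NW.edg T.1 \ E₂) M (Lo E₂ M) x ((s : ℝ) ^ 2 / Fintype.card V) hgood hν
    (by
      intro T hT
      have hT' : T ∈ triV E₂ X := hT
      unfold triV at hT'
      have h1 := (Finset.mem_filter.1 hT').2.1
      have h3 := ToCov.card_edg T
      have h4 := Finset.card_sdiff_add_card_inter (NW.edg T.1) E₂
      show (NW.edg T.1 \ E₂).card ≤ 2
      omega)
    hout.M_conf hout.M_sub hout.x_nonneg hout.x_le hout.x_ne
    (by
      intro e he
      exact hout.x_lo e (by rw [hEf]; exact he))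
    (by
      intro f
      refine Sym2.ind (fun a b => ?_) f
      by_cases hab : a = b
      · -- no loops
        have h0 : ((syT c J RT hh E₂ X).Vt.filter (fun T => s(a, b) ∈ NW.edg T.1 \ E₂ ∧
            (syT c J RT hh E₂ X).ed T ⊆ Lo E₂ M)) = ∅ := by
          refine Finset.filter_eq_empty_iff.2 ?_
          rintro T - ⟨hT, -⟩
          rw [Finset.mem_sdiff, NW.mk_mem_edg] at hT
          exact hT.1.2.2 hab
        show (((syT c J RT hh E₂ X).Vt.filter (fun T => s(a, b) ∈ NW.edg T.1 \ E₂ ∧
            (syT c J RT hh E₂ X).ed T ⊆ Lo E₂ M)).card : ℝ) * _ ≤ η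
        rw [h0]
        simpa using hη.le
      · have hcount := ToCov.count E₂ X (Lo E₂ M) a b hab
        have hdeg : ∀ v : V, (((Lo E₂ M).filter (fun e => v ∈ e)).card : ℝ) ≤
            (Fintype.card V : ℝ) ^ (1 - ω / 2) := by
          intro v
          have hd := hout.deg v
          refine le_trans ?_ hd
          have : (Lo E₂ M).filter (fun e => v ∈ e) =
              E₂.filter (fun e => v ∈ e) \ M.biUnion (syT c J RT hh E₂ X).ed := by
            rw [← hEf]
            ext e
            simp only [Finset.mem_filter, Finset.mem_sdiff]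
            tauto
          rw [this]
        have hc' : ((((triV E₂ X).filter (fun T => s(a, b) ∈ NW.edg T.1 \ E₂ ∧
            NW.edg T.1 ∩ E₂ ⊆ Lo E₂ M)).card : ℕ) : ℝ) ≤
            2 * (Fintype.card V : ℝ) ^ (1 - ω / 2) := by
          have h3 : ((((triV E₂ X).filter (fun T => s(a, b) ∈ NW.edg T.1 \ E₂ ∧
            NW.edg T.1 ∩ E₂ ⊆ Lo E₂ M)).card : ℕ) : ℝ) ≤
            (((Lo E₂ M).filter (fun e => a ∈ e)).card : ℝ) +
            (((Lo E₂ M).filter (fun e => b ∈ e)).card : ℝ) := by exact_mod_cast hcount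
          have h4 := hdeg a
          have h5 := hdeg b
          linarith
        show ((((triV E₂ X).filter (fun T => s(a, b) ∈ NW.edg T.1 \ E₂ ∧
            NW.edg T.1 ∩ E₂ ⊆ Lo E₂ M)).card : ℕ) : ℝ) * ((s : ℝ) ^ 2 / Fintype.card V) ≤ η
        have hpow : (Fintype.card V : ℝ) ^ (1 - ω / 2) =
            (Fintype.card V : ℝ) * (Fintype.card V : ℝ) ^ (-(ω / 2)) := by
          have : (1 - ω / 2 : ℝ) = 1 + -(ω / 2) := by ring
          rw [this, Real.rpow_add hn, Real.rpow_one]
        calc _ ≤ (2 * (Fintype.card V : ℝ) ^ (1 - ω / 2)) * ((s : ℝ) ^ 2 / Fintype.card V) :=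
              mul_le_mul_of_nonneg_right hc' hν.le
          _ = 2 * (s : ℝ) ^ 2 * (Fintype.card V : ℝ) ^ (-(ω / 2)) := by
              rw [hpow]
              field_simp
          _ ≤ η := h1)
    (by
      intro e he
      have := hout.hF e (by rw [hEf]; exact he)
      rw [hEf] at this
      exact le_trans this h2)
  refine ⟨ch, hMR, ?_, ?_, hch2, hch3⟩
  · intro T hT T' hT' hne
    have h3 := hout.M_disj T hT T' hT' hne
    have h4 : (syT c J RT hh E₂ X).ed T = NW.edg T.1 := hedR T (hMR hT)
    have h5 : (syT c J RT hh E₂ X).ed T' = NW.edg T'.1 := hedR T' (hMR hT')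
    rwa [h4, h5] at h3
  · intro e he
    exact hch1 e he

end F2
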