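import Pool.Agent.F2.SpecZ

/-!
# Project F2, row Z11: the main assembly
-/

set_option autoImplicit false
set_option linter.unusedSectionVars false

namespace F2

open Finset NW F1
open Pool.Agent.F2 (HH GG Spread)

theorem main (hgrid : GridStatement) (homni : OmniStatement) (hx : ExactAvoidStatement)
    (hb : BoostStatement) (han : ANStatement) (hfin : FinStatement) (hgc : GridCountStatement)
    (hgood : SyGoodStatement) (hhyp : HypStatement) (hcov : ToCovStatement)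
    (hnum : NumZStatement) (hdeg : DegStatement) : MainStatement := by
  intro g ε hε
  obtain ⟨Co, s₀, hO⟩ := homni ε hε
  obtain ⟨K, κ, hK, hκ, n1, hX⟩ := hx (ε / 4) (by positivity)
  obtain ⟨J, hJ3, hgJ⟩ : ∃ J : ℕ, 3 ≤ J ∧ g ≤ J := ⟨max g 3, le_max_right _ _, le_max_left _ _⟩
  obtain ⟨c, hc6, hcE, hJc⟩ : ∃ c : ℕ, 6 ≤ c ∧ Even c ∧ J < c :=
    ⟨2 * J + 6, by omega, ⟨J + 3, by ring⟩, by omega⟩
  obtain ⟨K₂, hK₂, hB₁⟩ := hb J c Co (ε / 2) K hJ3 hc6 hcE hJc (by positivity) hK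
  obtain ⟨K', hK'1, hKK', hK₂K'⟩ : ∃ K' : ℝ, 1 ≤ K' ∧ K ≤ K' ∧ K₂ ≤ K' :=
    ⟨max 1 (max K K₂), le_max_left _ _, (le_max_left _ _).trans (le_max_right _ _),
      (le_max_right _ _).trans (le_max_right _ _)⟩
  obtain ⟨ω, k, C, hω, hω1, hC, hk, n2, hA⟩ := han J K' hK'1
  obtain ⟨θ₀, hθ₀, hB₂⟩ := hB₁ k hk
  obtain ⟨η, hη, hCv⟩ := hcov J C hC
  have hJ0 : (0 : ℝ) < J := by exact_mod_cast (by omega : 0 < J)
  obtain ⟨θ, hθ, hθ1, hθ2, hθ3⟩ : ∃ θ : ℝ, 0 < θ ∧ θ ≤ θ₀ ∧ θ ≤ 1 / 10 ∧ 24 * J * θ ≤ ω := by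
    refine ⟨min (min θ₀ (1 / 10)) (ω / (24 * J)), ?_, ?_, ?_, ?_⟩
    · exact lt_min (lt_min hθ₀ (by norm_num)) (by positivity)
    · exact (min_le_left _ _).trans (min_le_left _ _)
    · exact (min_le_left _ _).trans (min_le_right _ _)
    · have h1 : min (min θ₀ (1 / 10)) (ω / (24 * J)) ≤ ω / (24 * J) := min_le_right _ _
      calc 24 * (J : ℝ) * min (min θ₀ (1 / 10)) (ω / (24 * J)) ≤ 24 * J * (ω / (24 * J)) := by
            gcongr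
        _ = ω := by field_simp
  obtain ⟨n3, hB⟩ := hB₂ θ hθ hθ1
  obtain ⟨n4, hG⟩ := hgrid ε θ hε hθ hθ2
  obtain ⟨n5, hN⟩ := hnum J (max (Co + 4) s₀) (ε / 4) κ η ω θ hJ3 (by positivity) hκ hη hω hθ
    (by linarith) hθ3
  refine ⟨n1 + n2 + n3 + n4 + n5 + 3, fun V _ _ E hDiv hn hdegE => ?_⟩
  set s : ℕ := ⌊(Fintype.card V : ℝ) ^ θ⌋₊ with hs
  have hs_le : (s : ℝ) ≤ (Fintype.card V : ℝ) ^ θ := Nat.floor_le (by positivity)
  have hs_ge : (Fintype.card V : ℝ) ^ θ ≤ s + 1 := (Nat.lt_floor_add_one _).le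
  obtain ⟨hn1, hCs, hs1, hCsn, hν, hJθ, hθ8, hη1, hη2, hκn, hεn, hCε⟩ :=
    hN (Fintype.card V) s (by omega) hs_le hs_ge
  have hCo4 : Co + 4 ≤ s := (le_max_left _ _).trans hCs
  have hs₀ : s₀ ≤ s := (le_max_right _ _).trans hCs
  have hCosn : Co * s ≤ Fintype.card V := by
    refine le_trans (Nat.mul_le_mul_right s ?_) hCsn
    exact le_trans (by omega) (le_max_left (Co + 4) s₀)
  obtain ⟨ro, co, hgr⟩ := hG V E hDiv.1 (by omega) hdegE s hs1 hs_le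
  obtain ⟨A, RT, hAsub, hRT, hAdeg, hRTv, hRTe, habs⟩ :=
    hO V E s ro co hDiv.1 hgr hs₀ hCosn hdegE
  set X : Finset (Sym2 V) := Xs ro co E with hXdef
  have hAbs : Abs E A X RT := ⟨filter_subset _ _, hAsub, hRT, habs⟩
  obtain ⟨E', hE'⟩ : ∃ E' : Finset (Sym2 V), E' = E \ (X ∪ A) := ⟨_, rfl⟩
  have hE'E : E' ⊆ E := hE' ▸ sdiff_subset
  have hE'X : E' ⊆ E \ X := by
    rw [hE']
    exact sdiff_subset_sdiff le_rfl subset_union_left
  have hNL' : NW.NL E' := fun e he => hDiv.1 e (hE'E he)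
  have hEA : Disjoint E' A := by
    rw [hE']
    exact (sdiff_disjoint).mono_right subset_union_right
  have hEX : Disjoint E' X := by
    rw [hE']
    exact (sdiff_disjoint).mono_right subset_union_left
  have hgc' := hgc V E E' s ro co hDiv.1 hgr hE'X
  have hdeg1 : ∀ v, (3 / 4 + ε / 2) * (Fintype.card V : ℝ) ≤ (NW.deg E' v : ℝ) := by
    have hc4 : ((Co + 4 : ℕ) : ℝ) ≤ ε / 2 * s := by
      have h1 : ((Co + 4 : ℕ) : ℝ) ≤ ((max (Co + 4) s₀ : ℕ) : ℝ) := by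
        exact_mod_cast le_max_left _ _
      have h2 : (0 : ℝ) ≤ s := Nat.cast_nonneg _
      have h3 : ((max (Co + 4) s₀ : ℕ) : ℝ) ≤ ε / 4 * s := hCε
      nlinarith
    have h := (hdeg Co s (3 / 4 + ε) (ε / 2) V E ∅ A X (by positivity) hdegE).1 hgc'.1 hAdeg hs1
      hc4
    intro v
    have h1 := h v
    rw [← hE'] at h1
    refine le_trans (le_of_eq ?_) h1
    ring
  obtain ⟨hh, hBd⟩ := hB V E' A X RT s (by omega) hs_le hs_ge hNL' hEA hEX hdeg1 hRT hRTv hRTe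
    hgc'.2.1
  have hBoo : Boo c J E A X RT hh :=
    ⟨fun r hr => hE' ▸ hBd.mem r hr, hBd.disj, hBd.clean⟩
  obtain ⟨E₂, hE₂⟩ : ∃ E₂ : Finset (Sym2 V), E₂ = E' \ bEs c RT hh := ⟨_, rfl⟩
  have hEr : Er c E A X RT hh = E₂ := by
    rw [hE₂, hE']
    rfl
  have hE₂E' : E₂ ⊆ E' := hE₂ ▸ sdiff_subset
  have hNL₂ : NW.NL E₂ := fun e he => hNL' e (hE₂E' he)
  have hdeg2 : ∀ v, (3 / 4 + ε / 4) * (Fintype.card V : ℝ) ≤ (NW.deg E₂ v : ℝ) := by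
    have h := (hdeg Co s (3 / 4 + ε / 2) (ε / 4) V E' (bEs c RT hh) A X (by positivity) hdeg1).2
      fun v => (hBd.deg v).trans hεn
    intro v
    have h1 := h v
    rw [← hE₂] at h1
    refine le_trans (le_of_eq ?_) h1
    ring
  have hgc₂ := hgc V E E₂ s ro co hDiv.1 hgr (hE₂E'.trans hE'X)
  -- the fractional decomposition
  set B : Finset (Tri V) := (triR E₂).filter
    (fun T => {T} ∈ (syT c J RT hh E₂ X).conf) with hBdef
  obtain ⟨w, hw0, hwK, hwne, hw1⟩ := hX V E₂ hNL₂ (by omega) hdeg2 B fun e => by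
    have h1 := hBd.thR e
    rw [← hE₂] at h1
    refine le_trans ?_ (h1.trans hκn)
    refine Nat.cast_le.2 (card_le_card fun T hT => ?_)
    simp only [hBdef, mem_filter] at hT ⊢
    exact ⟨hT.1.1, hT.2, hT.1.2⟩
  have hhyp' := hhyp c J k Co s K K₂ K' θ ω hK hKK' hK₂K' hs1 V E' X RT hh w hn1 hBd hNL' hEX
  rw [← hE₂] at hhyp'
  obtain ⟨x0, hHyp⟩ := hhyp'
    (fun v => by
      have h1 := hdeg2 v
      have h2 : (0 : ℝ) ≤ Fintype.card V := Nat.cast_nonneg _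
      have h3 : (Fintype.card V : ℝ) ≤ 2 * (NW.deg E₂ v : ℝ) := by nlinarith
      exact_mod_cast h3)
    hgc'.2.1 hgc₂.2.2 hw0 hwK
    (fun T hT => ⟨(hwne T hT).1, fun hcon => (hwne T hT).2 (mem_filter.2
      ⟨mem_filter.2 ⟨mem_univ _, (hwne T hT).1⟩, hcon⟩)⟩)
    hw1 hν hJθ hθ8
  obtain ⟨M, x, hOut⟩ := hA (Sym2 V) (Tri V) V (syT c J RT hh E₂ X) (Fintype.card V)
    ((s : ℝ) ^ 2 / Fintype.card V) E₂ w x0 _ (by omega) hHyp
  obtain ⟨ch, hCov⟩ := hCv c s ω V E₂ X RT hh M x (by omega) hs1 hNL₂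
    (hEX.mono_left hE₂E') (hgood c J s V E₂ X RT hh) hOut hη1 hη2
  obtain ⟨𝒯, h1, h2, h3⟩ := hfin c J hc6 hcE V E A X RT hh M ch hDiv hAbs hBoo (hEr ▸ hCov)
  exact ⟨𝒯, h1, h2, fun U hU4 hUg => h3 U hU4 (by omega)⟩

end F2
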